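import Pool.Agent.Helper92.BO.GoalsF

/-!
# Stable set polytopes: the walks in polynomial time (goal PTK)
-/

namespace Pool.Agent.Helper8.BO

open Pool.Agent.Helper81.CC Pool.Agent.Bin Pool.Agent.Helper92.VP Pool.Agent.Helper92.FR
open Pool.Agent.Helper92.BO

theorem sz_list_nat_le (M : ℕ) : ∀ l : List ℕ, (∀ x ∈ l, x ≤ M) → sz l ≤ 1 + l.length * (2 * M + 2)
  | [], _ => by simp
  | x :: l, h => by
    have h1 := sz_list_nat_le M l (fun y hy => h y (List.mem_cons_of_mem _ hy))
    have h2 := h x List.mem_cons_self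
    rw [sz_cons, sz_nat, List.length_cons]
    have h3 : (l.length + 1) * (2 * M + 2) = l.length * (2 * M + 2) + (2 * M + 2) := by ring
    omega

theorem getD_prop {P : ℕ → Prop} (l : List ℕ) (i d : ℕ) (h : ∀ x ∈ l, P x) (hd : P d) :
    P (l.getD i d) := by
  rw [List.getD_eq_getElem?_getD]
  by_cases hi : i < l.length
  · rw [List.getElem?_eq_getElem hi]
    exact h _ (List.getElem_mem hi)
  · rw [List.getElem?_eq_none (not_lt.1 hi)]
    exact hd

theorem walk_bound (E : List (ℕ × ℕ)) (n B e M : ℕ) (hn : n ≤ M) :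
    ∀ (l : List ℕ) (s : ℕ × List ℕ), s.1 ≤ e → (∀ x ∈ s.2, x ≤ M) →
      (l.foldl (fun st _ => wstep E n B st) s).1 ≤ e ∧
      (∀ x ∈ (l.foldl (fun st _ => wstep E n B st) s).2, x ≤ M) ∧
      (l.foldl (fun st _ => wstep E n B st) s).2.length = s.2.length + l.length
  | [], s, h1, h2 => ⟨h1, h2, rfl⟩
  | b :: l, s, h1, h2 => by
    have h3 : (wstep E n B s).1 ≤ e := (Nat.div_le_self _ _).trans h1
    have h0 : s.2.headD 0 ≤ M := by
      cases h : s.2 with
      | nil => exact Nat.zero_le _
      | cons x t => exact h2 x (by rw [h]; exact List.mem_cons_self)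
    have h4 : ∀ x ∈ (wstep E n B s).2, x ≤ M := by
      intro x hx
      rcases List.mem_cons.1 hx with rfl | hx
      · refine getD_prop (P := fun y => y ≤ M) _ _ _ (fun y hy => ?_) h0
        have h5 := List.mem_range.1 (List.mem_filter.1 hy).1
        omega
      · exact h2 x hx
    obtain ⟨h5, h6, h7⟩ := walk_bound E n B e M hn l (wstep E n B s) h3 h4
    refine ⟨h5, h6, ?_⟩
    rw [List.foldl_cons, h7]
    show s.2.length + 1 + l.length = s.2.length + (l.length + 1)
    omega

/-- Goal PTK. -/
theorem ptk (hG : PtgStmt) : PtkStmt := by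
  intro α _ E n B T e v hE hn hB hT he hv
  have hstep : PolyTime (fun z : α × (ℕ × List ℕ) × ℕ => wstep (E z.1) (n z.1) (B z.1) z.2.1) := by
    have h1 : PolyTime (fun z : α × (ℕ × List ℕ) × ℕ =>
        nbR (E z.1) (n z.1) (z.2.1.2.headD 0)) :=
      (hG.2 _ (fun z : α × (ℕ × List ℕ) × ℕ => E z.1) (fun z => n z.1)
        (fun z => z.2.1.2.headD 0) (fun _ => 0) (fun _ => []) (by fun_prop) (by fun_prop)
        (by fun_prop) (by fun_prop) (by fun_prop)).2.2.2.1
    unfold wstep
    fun_prop
  refine PolyTime.snd (PolyTime.foldl_bd (l := fun a => List.range (T a))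
    (s0 := fun a => (e a, [v a])) (step := fun a st _ => wstep (E a) (n a) (B a) st)
    (by fun_prop) (by fun_prop) hstep
    (B := fun a => (2 * e a + 1) + (1 + (1 + T a) * (2 * (n a + v a) + 2)) + 1) ?_ ?_)
  · have he' := PBd.nat he
    have hn' := PBd.nat hn
    have hv' := PBd.nat hv
    have hT' := PBd.nat hT
    exact ((((PBd.const 2).mul he').add (PBd.const 1)).add ((PBd.const 1).add
      (((PBd.const 1).add hT').mul (((PBd.const 2).mul (hn'.add hv')).add (PBd.const 2))))).add
      (PBd.const 1)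
  · intro a l' hl'
    obtain ⟨h1, h2, h3⟩ := walk_bound (E a) (n a) (B a) (e a) (n a + v a) (Nat.le_add_right _ _)
      l' (e a, [v a]) le_rfl (by
        intro x hx
        rw [List.mem_singleton.1 hx]
        exact Nat.le_add_left _ _)
    have h4 := sz_list_nat_le _ _ h2
    have h5 : l'.length ≤ T a := by
      have := hl'.length_le
      rwa [List.length_range] at this
    rw [h3] at h4
    have h6 : (e a, [v a]).2.length + l'.length ≤ 1 + T a := by
      show ([v a] : List ℕ).length + l'.length ≤ 1 + T a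
      rw [List.length_singleton]
      omega
    have h7 := Nat.mul_le_mul_right (2 * (n a + v a) + 2) h6
    have h8 : sz (l'.foldl (fun st _ => wstep (E a) (n a) (B a) st) (e a, [v a])) =
        sz (l'.foldl (fun st _ => wstep (E a) (n a) (B a) st) (e a, [v a])).1 +
        sz (l'.foldl (fun st _ => wstep (E a) (n a) (B a) st) (e a, [v a])).2 + 1 := sz_pair _ _
    rw [h8, sz_nat]
    omega

end Pool.Agent.Helper8.BO
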