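import Pool.Agent.Helper92.BO.GoalsA

/-!
# Stable set polytopes: goal STR
-/

namespace Pool.Agent.Helper8.BO

open MeasureTheory Filter Topology Function
open Pool.Agent.Helper92.BO

/-- An antitone density: the mean over `[0, y']` is at least the mean over `[0, y]`. -/
theorem mean_anti (r : ℝ → ℝ) (hi : IntervalIntegrable r volume 0 1)
    (ha : ∀ x' x, 0 ≤ x' → x' ≤ x → x ≤ 1 → r x ≤ r x') (y' y : ℝ) (h0 : 0 < y') (h1 : y' ≤ y)
    (h2 : y ≤ 1) : (∫ x in (0 : ℝ)..y, r x) * y' ≤ (∫ x in (0 : ℝ)..y', r x) * y := by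
  have hi1 : IntervalIntegrable r volume 0 y' := by
    apply hi.mono_set
    rw [Set.uIcc_of_le h0.le, Set.uIcc_of_le zero_le_one]
    exact Set.Icc_subset_Icc le_rfl (h1.trans h2)
  have hi2 : IntervalIntegrable r volume y' y := by
    apply hi.mono_set
    rw [Set.uIcc_of_le h1, Set.uIcc_of_le zero_le_one]
    exact Set.Icc_subset_Icc h0.le h2
  have hs : (∫ x in (0 : ℝ)..y, r x) = (∫ x in (0 : ℝ)..y', r x) + ∫ x in y'..y, r x :=
    (intervalIntegral.integral_add_adjacent_intervals hi1 hi2).symm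
  have ha1 : r y' * y' ≤ ∫ x in (0 : ℝ)..y', r x := by
    have h := intervalIntegral.integral_mono_on h0.le
      (intervalIntegrable_const (c := r y') (μ := volume) (a := 0) (b := y')) hi1
      (fun x hx => ha x y' hx.1 hx.2 (h1.trans h2))
    rw [intervalIntegral.integral_const, smul_eq_mul] at h
    linarith [h]
  have ha2 : (∫ x in y'..y, r x) ≤ r y' * (y - y') := by
    have h := intervalIntegral.integral_mono_on h1 hi2
      (intervalIntegrable_const (c := r y') (μ := volume) (a := y') (b := y))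
      (fun x hx => ha y' x h0.le hx.1 (hx.2.trans h2))
    rw [intervalIntegral.integral_const, smul_eq_mul] at h
    linarith [h]
  rw [hs]
  have h3 := mul_le_mul_of_nonneg_right ha2 h0.le
  have h4 := mul_le_mul_of_nonneg_right ha1 (sub_nonneg.mpr h1)
  nlinarith [h3, h4]

theorem psiR_nonneg {l : ℝ} (h0 : 0 < l) (x : ℝ) : 0 ≤ psiR l x := by
  unfold psiR
  split_ifs
  · exact zero_le_one
  · exact h0.le

theorem psiR_anti {l : ℝ} (h1 : l ≤ 1) {x' x : ℝ} (h : x' ≤ x) : psiR l x ≤ psiR l x' := by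
  unfold psiR
  split_ifs with ha hb hb
  · exact le_rfl
  · exact absurd (h.trans ha) hb
  · exact h1
  · exact le_rfl

theorem cut_in01 (G : SimpleGraph ℕ) (L : List ℕ) (v : ℕ) (b : ℕ → ℝ) (hb : In01 L b) (x : ℝ)
    (_h0 : 0 ≤ x) (h1 : x ≤ 1) : In01 L (cut G v (1 - x) b) := by
  intro u hu
  obtain ⟨h2, h3⟩ := hb u hu
  unfold cut
  split_ifs
  · exact ⟨le_min h2 (by linarith), (min_le_left _ _).trans h3⟩
  · exact ⟨h2, h3⟩

theorem cut_anti (G : SimpleGraph ℕ) (v : ℕ) (b : ℕ → ℝ) (x' x : ℝ) (h : x' ≤ x) (u : ℕ) :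
    cut G v (1 - x) b u ≤ cut G v (1 - x') b u := by
  unfold cut
  split_ifs
  · exact min_le_min le_rfl (by linarith)
  · exact le_rfl

theorem ZR_update (hL : LocStmt) (G : SimpleGraph ℕ) (l : ℝ) (L : List ℕ) (v : ℕ) (b : ℕ → ℝ)
    (y : ℝ) (hv : v ∉ L) : ZR G l (v :: L) (update b v y) =
      ∫ x in (0 : ℝ)..y, psiR l x * ZR G l L (cut G v (1 - x) b) := by
  have h : ∀ x, ZR G l L (cut G v (1 - x) (update b v y)) = ZR G l L (cut G v (1 - x) b) := by
    intro x
    refine (hL G (fun _ => 0) 0 l L _ _ ?_).2.1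
    intro u hu
    have huv : u ≠ v := fun e => hv (e ▸ hu)
    unfold cut
    rw [update_of_ne huv]
  show (∫ x in (0 : ℝ)..(update b v y v), psiR l x *
    ZR G l L (cut G v (1 - x) (update b v y))) = _
  rw [update_self]
  simp only [h]

/-- Goal STR. -/
theorem str (hL : LocStmt) (hC : CntStmt) (hP : PosStmt) (hM : MonStmt) : StrStmt := by
  intro G l L v b y' y hl0 hl1 hv hb h0 h1 h2
  rw [ZR_update hL G l L v b y hv, ZR_update hL G l L v b y' hv]
  refine mean_anti _ (hC G 0 l L v b hb).2.2.2 ?_ y' y h0 h1 h2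
  intro x' x hx0 hxx hx1
  have hi := cut_in01 G L v b hb x (hx0.trans hxx) hx1
  have hi' := cut_in01 G L v b hb x' hx0 (hxx.trans hx1)
  have hm := hM G l L _ _ hl0 hl1 hi hi' (fun u _ => cut_anti G v b x' x hxx u)
  exact mul_le_mul (psiR_anti hl1 hxx) hm ((hP G l L _ hl0 hl1).1 hi).1 (psiR_nonneg hl0 x')

end Pool.Agent.Helper8.BO
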